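import Mathlib

/-!
# Almost orthogonality, degree bounds and augmentation (Module T, helper11)
-/

namespace KT11
open Finset
open scoped BigOperators

variable {ι κ : Type*} [Fintype ι] [DecidableEq ι] [Fintype κ]

/-- solution of the normal equations for a family whose Gram matrix is at least `1/2` -/
theorem exists_proj (a : ι → κ → ℝ) (S : Finset ι)
    (hG : ∀ c : ι → ℝ, (1 / 2) * ∑ i ∈ S, c i ^ 2 ≤ ∑ j, (∑ i ∈ S, c i * a i j) ^ 2)
    (ψ : κ → ℝ) :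
    ∃ c : ι → ℝ, (∀ i, i ∉ S → c i = 0) ∧
      ∀ i ∈ S, ∑ j, (∑ i' ∈ S, c i' * a i' j) * a i j = ∑ j, ψ j * a i j := by
  classical
  let L : (S → ℝ) →ₗ[ℝ] (S → ℝ) :=
    { toFun := fun c i => ∑ j, (∑ i' : S, c i' * a i' j) * a i j
      map_add' := by
        intro x y
        funext i
        simp only [Pi.add_apply, add_mul, Finset.sum_add_distrib]
      map_smul' := by
        intro r x
        funext i
        simp only [Pi.smul_apply, smul_eq_mul, RingHom.id_apply, Finset.mul_sum, Finset.sum_mul]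
        refine Finset.sum_congr rfl fun j _ => ?_
        refine Finset.sum_congr rfl fun i' _ => ?_
        ring }
  have hext : ∀ c : S → ℝ, ∃ d : ι → ℝ, (∀ i, i ∉ S → d i = 0) ∧ ∀ i : S, d i = c i := by
    intro c
    refine ⟨fun i => if h : i ∈ S then c ⟨i, h⟩ else 0, fun i hi => by simp [hi], fun i => by
      simp [i.2]⟩
  have hinj : Function.Injective L := by
    rw [← LinearMap.ker_eq_bot, LinearMap.ker_eq_bot']
    intro c hc
    obtain ⟨d, hd0, hd⟩ := hext c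
    have h1 : ∀ j, ∑ i ∈ S, d i * a i j = ∑ i : S, c i * a i j := by
      intro j
      rw [← Finset.sum_coe_sort S]
      exact Finset.sum_congr rfl fun i _ => by rw [hd i]
    have h2 : ∑ j, (∑ i ∈ S, d i * a i j) ^ 2 = ∑ i : S, c i * L c i := by
      simp only [h1]
      have : ∀ i : S, c i * L c i = ∑ j, (∑ i' : S, c i' * a i' j) * (c i * a i j) := by
        intro i
        show c i * ∑ j, (∑ i' : S, c i' * a i' j) * a i j = _
        rw [Finset.mul_sum]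
        exact Finset.sum_congr rfl fun j _ => by ring
      simp only [this]
      rw [Finset.sum_comm]
      refine Finset.sum_congr rfl fun j _ => ?_
      rw [← Finset.mul_sum, sq]
    have h3 := hG d
    rw [h2, hc] at h3
    simp only [Pi.zero_apply, mul_zero, Finset.sum_const_zero] at h3
    have h4 : ∑ i ∈ S, d i ^ 2 = 0 := le_antisymm (by linarith)
      (Finset.sum_nonneg fun i _ => sq_nonneg _)
    funext i
    have h5 := (Finset.sum_eq_zero_iff_of_nonneg (fun i _ => sq_nonneg (d i))).1 h4 i i.2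
    rw [← hd i]
    simpa using h5
  have hsurj : Function.Surjective L := LinearMap.injective_iff_surjective.1 hinj
  obtain ⟨c, hc⟩ := hsurj (fun i => ∑ j, ψ j * a i j)
  obtain ⟨d, hd0, hd⟩ := hext c
  refine ⟨d, hd0, fun i hi => ?_⟩
  have h1 : ∀ j, ∑ i ∈ S, d i * a i j = ∑ i : S, c i * a i j := by
    intro j
    rw [← Finset.sum_coe_sort S]
    exact Finset.sum_congr rfl fun i _ => by rw [hd i]
  simp only [h1]
  exact congrFun hc ⟨i, hi⟩

/-- **Almost orthogonality.** -/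
theorem almost_orthogonal (a : ι → κ → ℝ)
    (hG : ∀ (S : Finset ι) (c : ι → ℝ),
      (1 / 2) * ∑ i ∈ S, c i ^ 2 ≤ ∑ j, (∑ i ∈ S, c i * a i j) ^ 2)
    (Qs : Finset (Finset ι)) (B γ : ℝ) (hB : ∀ Q ∈ Qs, (Q.card : ℝ) ≤ B) (hγ : 0 ≤ γ)
    (hB0 : 0 ≤ B)
    (hgram : ∀ Q ∈ Qs, ∀ Q' ∈ Qs, Q ≠ Q' → ∀ i ∈ Q, ∀ i' ∈ Q',
      |∑ j, a i j * a i' j| ≤ γ)
    (hsmall : 2 * γ * B * Qs.card ≤ 1) (ψ : κ → ℝ) :
    ∃ θ : Finset ι → κ → ℝ,
      (∀ Q ∈ Qs, ∀ i ∈ Q, ∑ j, θ Q j * a i j = ∑ j, ψ j * a i j) ∧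
      ∑ Q ∈ Qs, ∑ j, θ Q j ^ 2 ≤ 2 * ∑ j, ψ j ^ 2 := by
  classical
  choose c hc0 hc using fun S => exists_proj a S (hG S) ψ
  let θ : Finset ι → κ → ℝ := fun Q j => ∑ i ∈ Q, c Q i * a i j
  -- the norm of theta and the coefficients
  have hcoef : ∀ Q, ∑ i ∈ Q, c Q i ^ 2 ≤ 2 * ∑ j, θ Q j ^ 2 := by
    intro Q
    have := hG Q (c Q)
    show ∑ i ∈ Q, c Q i ^ 2 ≤ 2 * ∑ j, (∑ i ∈ Q, c Q i * a i j) ^ 2
    linarith
  have hself : ∀ Q, ∑ j, θ Q j ^ 2 = ∑ j, ψ j * θ Q j := by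
    intro Q
    have h1 : ∑ j, θ Q j ^ 2 = ∑ i ∈ Q, c Q i * ∑ j, θ Q j * a i j := by
      simp only [Finset.mul_sum]
      rw [Finset.sum_comm]
      refine Finset.sum_congr rfl fun j _ => ?_
      calc θ Q j ^ 2 = θ Q j * ∑ i ∈ Q, c Q i * a i j := by rw [sq]
        _ = _ := by
          rw [Finset.mul_sum]
          exact Finset.sum_congr rfl fun i _ => by ring
    have h2 : ∑ j, ψ j * θ Q j = ∑ i ∈ Q, c Q i * ∑ j, ψ j * a i j := by
      simp only [Finset.mul_sum]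
      rw [Finset.sum_comm]
      refine Finset.sum_congr rfl fun j _ => ?_
      calc ψ j * θ Q j = ψ j * ∑ i ∈ Q, c Q i * a i j := rfl
        _ = _ := by
          rw [Finset.mul_sum]
          exact Finset.sum_congr rfl fun i _ => by ring
    rw [h1, h2]
    exact Finset.sum_congr rfl fun i hi => by rw [hc Q i hi]
  let s : Finset ι → ℝ := fun Q => ∑ j, θ Q j ^ 2
  have hs0 : ∀ Q, 0 ≤ s Q := fun Q => Finset.sum_nonneg fun j _ => sq_nonneg _
  have hcross : ∀ Q ∈ Qs, ∀ Q' ∈ Qs, Q ≠ Q' →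
      ∑ j, θ Q j * θ Q' j ≤ 2 * γ * B * (Real.sqrt (s Q) * Real.sqrt (s Q')) := by
    intro Q hQ Q' hQ' hne
    have h1 : ∑ j, θ Q j * θ Q' j
        = ∑ i ∈ Q, ∑ i' ∈ Q', c Q i * c Q' i' * ∑ j, a i j * a i' j := by
      calc ∑ j, θ Q j * θ Q' j
          = ∑ j, ∑ i ∈ Q, ∑ i' ∈ Q', (c Q i * a i j) * (c Q' i' * a i' j) := by
            refine Finset.sum_congr rfl fun j _ => ?_
            show (∑ i ∈ Q, c Q i * a i j) * (∑ i ∈ Q', c Q' i * a i j) = _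
            rw [Finset.sum_mul_sum]
        _ = ∑ i ∈ Q, ∑ i' ∈ Q', ∑ j, (c Q i * a i j) * (c Q' i' * a i' j) := by
            rw [Finset.sum_comm]
            refine Finset.sum_congr rfl fun i _ => ?_
            rw [Finset.sum_comm]
        _ = _ := by
            refine Finset.sum_congr rfl fun i _ => Finset.sum_congr rfl fun i' _ => ?_
            rw [Finset.mul_sum]
            exact Finset.sum_congr rfl fun j _ => by ring
    have h2 : ∑ i ∈ Q, ∑ i' ∈ Q', c Q i * c Q' i' * ∑ j, a i j * a i' j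
        ≤ ∑ i ∈ Q, ∑ i' ∈ Q', γ * (|c Q i| * |c Q' i'|) := by
      refine Finset.sum_le_sum fun i hi => Finset.sum_le_sum fun i' hi' => ?_
      have h3 := hgram Q hQ Q' hQ' hne i hi i' hi'
      calc c Q i * c Q' i' * ∑ j, a i j * a i' j
          ≤ |c Q i * c Q' i' * ∑ j, a i j * a i' j| := le_abs_self _
        _ = |c Q i| * |c Q' i'| * |∑ j, a i j * a i' j| := by rw [abs_mul, abs_mul]
        _ ≤ |c Q i| * |c Q' i'| * γ :=
            mul_le_mul_of_nonneg_left h3 (mul_nonneg (abs_nonneg _) (abs_nonneg _))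
        _ = _ := by ring
    have h4 : ∑ i ∈ Q, ∑ i' ∈ Q', γ * (|c Q i| * |c Q' i'|)
        = γ * ((∑ i ∈ Q, |c Q i|) * (∑ i' ∈ Q', |c Q' i'|)) := by
      rw [Finset.sum_mul_sum, Finset.mul_sum]
      exact Finset.sum_congr rfl fun i _ => by rw [Finset.mul_sum]
    have h5 : ∀ R ∈ Qs, ∑ i ∈ R, |c R i| ≤ Real.sqrt (2 * B) * Real.sqrt (s R) := by
      intro R hR
      have h6 : (∑ i ∈ R, |c R i|) ^ 2 ≤ R.card * ∑ i ∈ R, |c R i| ^ 2 :=
        sq_sum_le_card_mul_sum_sq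
      have h7 : ∑ i ∈ R, |c R i| ^ 2 ≤ 2 * s R := by
        simp only [sq_abs]
        exact hcoef R
      rw [← Real.sqrt_mul (by positivity)]
      apply Real.le_sqrt_of_sq_le
      calc (∑ i ∈ R, |c R i|) ^ 2 ≤ R.card * ∑ i ∈ R, |c R i| ^ 2 := h6
        _ ≤ B * (2 * s R) := by
            apply mul_le_mul (hB R hR) h7 (Finset.sum_nonneg fun i _ => sq_nonneg _) hB0
        _ = 2 * B * s R := by ring
    have h8 : (∑ i ∈ Q, |c Q i|) * (∑ i' ∈ Q', |c Q' i'|)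
        ≤ (Real.sqrt (2 * B) * Real.sqrt (s Q)) * (Real.sqrt (2 * B) * Real.sqrt (s Q')) :=
      mul_le_mul (h5 Q hQ) (h5 Q' hQ') (Finset.sum_nonneg fun i _ => abs_nonneg _)
        (by positivity)
    have h9 : Real.sqrt (2 * B) * Real.sqrt (2 * B) = 2 * B := Real.mul_self_sqrt (by positivity)
    calc ∑ j, θ Q j * θ Q' j ≤ γ * ((∑ i ∈ Q, |c Q i|) * (∑ i' ∈ Q', |c Q' i'|)) := by
          rw [h1, ← h4]; exact h2
      _ ≤ γ * ((Real.sqrt (2 * B) * Real.sqrt (s Q)) * (Real.sqrt (2 * B) * Real.sqrt (s Q'))) :=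
          mul_le_mul_of_nonneg_left h8 hγ
      _ = γ * (Real.sqrt (2 * B) * Real.sqrt (2 * B)) * (Real.sqrt (s Q) * Real.sqrt (s Q')) := by
          ring
      _ = _ := by rw [h9]; ring
  -- total
  let Tt : ℝ := ∑ Q ∈ Qs, s Q
  have hT0 : 0 ≤ Tt := Finset.sum_nonneg fun Q _ => hs0 Q
  have hsum : ∑ j, (∑ Q ∈ Qs, θ Q j) ^ 2 ≤ 2 * Tt := by
    have h1 : ∑ j, (∑ Q ∈ Qs, θ Q j) ^ 2 = ∑ Q ∈ Qs, ∑ Q' ∈ Qs, ∑ j, θ Q j * θ Q' j := by
      calc ∑ j, (∑ Q ∈ Qs, θ Q j) ^ 2 = ∑ j, ∑ Q ∈ Qs, ∑ Q' ∈ Qs, θ Q j * θ Q' j := by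
            refine Finset.sum_congr rfl fun j _ => ?_
            rw [sq, Finset.sum_mul_sum]
        _ = _ := by
            rw [Finset.sum_comm]
            refine Finset.sum_congr rfl fun Q _ => ?_
            rw [Finset.sum_comm]
    have h2 : ∀ Q ∈ Qs, ∀ Q' ∈ Qs, ∑ j, θ Q j * θ Q' j
        ≤ (if Q = Q' then s Q else 0) + 2 * γ * B * (Real.sqrt (s Q) * Real.sqrt (s Q')) := by
      intro Q hQ Q' hQ'
      by_cases h : Q = Q'
      · subst h
        rw [if_pos rfl]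
        have : ∑ j, θ Q j * θ Q j = s Q := Finset.sum_congr rfl fun j _ => by rw [sq]
        rw [this]
        have : 0 ≤ 2 * γ * B * (Real.sqrt (s Q) * Real.sqrt (s Q)) := by positivity
        linarith
      · rw [if_neg h, zero_add]
        exact hcross Q hQ Q' hQ' h
    have h3 : ∑ Q ∈ Qs, ∑ Q' ∈ Qs, ∑ j, θ Q j * θ Q' j
        ≤ Tt + 2 * γ * B * (∑ Q ∈ Qs, Real.sqrt (s Q)) ^ 2 := by
      calc ∑ Q ∈ Qs, ∑ Q' ∈ Qs, ∑ j, θ Q j * θ Q' j
          ≤ ∑ Q ∈ Qs, ∑ Q' ∈ Qs, ((if Q = Q' then s Q else 0)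
            + 2 * γ * B * (Real.sqrt (s Q) * Real.sqrt (s Q'))) :=
            Finset.sum_le_sum fun Q hQ => Finset.sum_le_sum fun Q' hQ' => h2 Q hQ Q' hQ'
        _ = _ := by
            simp only [Finset.sum_add_distrib]
            congr 1
            · refine Finset.sum_congr rfl fun Q hQ => ?_
              rw [Finset.sum_ite_eq]
              simp [hQ]
            · rw [sq, Finset.sum_mul_sum, Finset.mul_sum]
              exact Finset.sum_congr rfl fun Q _ => by rw [Finset.mul_sum]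
    have h4 : (∑ Q ∈ Qs, Real.sqrt (s Q)) ^ 2 ≤ Qs.card * Tt := by
      have := sq_sum_le_card_mul_sum_sq (s := Qs) (f := fun Q => Real.sqrt (s Q))
      have h5 : ∑ Q ∈ Qs, Real.sqrt (s Q) ^ 2 = Tt :=
        Finset.sum_congr rfl fun Q _ => Real.sq_sqrt (hs0 Q)
      rw [h5] at this
      exact this
    have h6 : 2 * γ * B * (∑ Q ∈ Qs, Real.sqrt (s Q)) ^ 2 ≤ Tt := by
      calc 2 * γ * B * (∑ Q ∈ Qs, Real.sqrt (s Q)) ^ 2 ≤ 2 * γ * B * (Qs.card * Tt) :=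
            mul_le_mul_of_nonneg_left h4 (by positivity)
        _ = (2 * γ * B * Qs.card) * Tt := by ring
        _ ≤ 1 * Tt := mul_le_mul_of_nonneg_right hsmall hT0
        _ = Tt := one_mul _
    rw [h1]
    linarith
  have hmain : Tt = ∑ j, ψ j * ∑ Q ∈ Qs, θ Q j := by
    calc Tt = ∑ Q ∈ Qs, ∑ j, ψ j * θ Q j := Finset.sum_congr rfl fun Q _ => hself Q
      _ = _ := by
          rw [Finset.sum_comm]
          exact Finset.sum_congr rfl fun j _ => by rw [Finset.mul_sum]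
  have hcs : Tt ^ 2 ≤ (∑ j, ψ j ^ 2) * (2 * Tt) := by
    calc Tt ^ 2 = (∑ j, ψ j * ∑ Q ∈ Qs, θ Q j) ^ 2 := by rw [← hmain]
      _ ≤ (∑ j, ψ j ^ 2) * ∑ j, (∑ Q ∈ Qs, θ Q j) ^ 2 := Finset.sum_mul_sq_le_sq_mul_sq _ _ _
      _ ≤ _ := mul_le_mul_of_nonneg_left hsum (Finset.sum_nonneg fun j _ => sq_nonneg _)
  refine ⟨θ, fun Q _ i hi => hc Q i hi, ?_⟩
  show Tt ≤ 2 * ∑ j, ψ j ^ 2
  have hψ0 : 0 ≤ ∑ j, ψ j ^ 2 := Finset.sum_nonneg fun j _ => sq_nonneg _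
  rcases eq_or_lt_of_le hT0 with h | h
  · rw [← h]; positivity
  · have : Tt * Tt ≤ (2 * ∑ j, ψ j ^ 2) * Tt := by nlinarith [hcs]
    exact le_of_mul_le_mul_right this h

/-- few large inner products -/
theorem card_large (a : ι → κ → ℝ) (b : ℝ)
    (hop : ∀ ψ : κ → ℝ, ∑ i, (∑ j, ψ j * a i j) ^ 2 ≤ b * ∑ j, ψ j ^ 2)
    (ψ : κ → ℝ) (g : ℝ) (hg : 0 < g) :
    ((univ.filter (fun i => g ≤ |∑ j, ψ j * a i j|)).card : ℝ) ≤ b * (∑ j, ψ j ^ 2) / g ^ 2 := by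
  rw [le_div_iff₀ (by positivity)]
  calc ((univ.filter (fun i => g ≤ |∑ j, ψ j * a i j|)).card : ℝ) * g ^ 2
      = ∑ i ∈ univ.filter (fun i => g ≤ |∑ j, ψ j * a i j|), g ^ 2 := by
        rw [Finset.sum_const, nsmul_eq_mul]
    _ ≤ ∑ i ∈ univ.filter (fun i => g ≤ |∑ j, ψ j * a i j|), (∑ j, ψ j * a i j) ^ 2 := by
        refine Finset.sum_le_sum fun i hi => ?_
        have h := (Finset.mem_filter.1 hi).2
        rw [← sq_abs (∑ j, ψ j * a i j)]
        exact pow_le_pow_left₀ hg.le h 2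
    _ ≤ ∑ i, (∑ j, ψ j * a i j) ^ 2 :=
        Finset.sum_le_sum_of_subset_of_nonneg (Finset.filter_subset _ _)
          fun i _ _ => sq_nonneg _
    _ ≤ _ := hop ψ

/-- degree of the Gram graph -/
theorem gram_degree (a : ι → κ → ℝ) (b : ℝ)
    (hop : ∀ ψ : κ → ℝ, ∑ i, (∑ j, ψ j * a i j) ^ 2 ≤ b * ∑ j, ψ j ^ 2) (hb : 0 ≤ b)
    (ha : ∀ i, ∑ j, a i j ^ 2 ≤ 1) (i : ι) (g : ℝ) (hg : 0 < g) :
    ((univ.filter (fun i' => g ≤ |∑ j, a i j * a i' j|)).card : ℝ) ≤ b / g ^ 2 := by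
  refine (card_large a b hop (a i) g hg).trans ?_
  apply div_le_div_of_nonneg_right _ (by positivity)
  calc b * ∑ j, a i j ^ 2 ≤ b * 1 := mul_le_mul_of_nonneg_left (ha i) hb
    _ = b := mul_one b

/-! ### augmentation by identity rows -/

/-- the augmented columns `(a_i, e_i) / √2` -/
noncomputable def aug (a : ι → κ → ℝ) (i : ι) : κ ⊕ ι → ℝ
  | Sum.inl j => a i j / Real.sqrt 2
  | Sum.inr i' => (if i = i' then 1 else 0) / Real.sqrt 2

/-- extension of a functional by zero, scaled by `√2` -/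
noncomputable def augF (ψ : κ → ℝ) : κ ⊕ ι → ℝ
  | Sum.inl j => Real.sqrt 2 * ψ j
  | Sum.inr _ => 0

theorem sq_sqrt2 : Real.sqrt 2 ^ 2 = 2 := Real.sq_sqrt (by norm_num)

theorem aug_norm (a : ι → κ → ℝ) (ha : ∀ i, ∑ j, a i j ^ 2 ≤ 1) (i : ι) :
    ∑ j, aug a i j ^ 2 ≤ 1 := by
  rw [Fintype.sum_sum_type]
  have h1 : ∑ j, aug a i (Sum.inl j) ^ 2 = (∑ j, a i j ^ 2) / 2 := by
    simp only [aug, div_pow, sq_sqrt2]
    rw [Finset.sum_div]
  have h2 : ∑ i', aug a i (Sum.inr i') ^ 2 = 1 / 2 := by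
    simp only [aug, div_pow, sq_sqrt2]
    rw [← Finset.sum_div]
    congr 1
    rw [Finset.sum_eq_single i]
    · simp
    · intro b _ hb
      rw [if_neg (Ne.symm hb)]; norm_num
    · intro h; exact absurd (Finset.mem_univ _) h
  rw [h1, h2]
  have := ha i
  linarith

theorem augF_norm (ψ : κ → ℝ) : ∑ j, augF (ι := ι) ψ j ^ 2 = 2 * ∑ j, ψ j ^ 2 := by
  rw [Fintype.sum_sum_type]
  simp only [augF, mul_pow, sq_sqrt2]
  rw [Finset.mul_sum]
  simp

theorem augF_apply (a : ι → κ → ℝ) (ψ : κ → ℝ) (i : ι) :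
    ∑ j, augF ψ j * aug a i j = ∑ j, ψ j * a i j := by
  have h0 : Real.sqrt 2 ≠ 0 := by positivity
  rw [Fintype.sum_sum_type]
  simp only [augF, aug, zero_mul, Finset.sum_const_zero, add_zero]
  refine Finset.sum_congr rfl fun j _ => ?_
  field_simp

theorem aug_gram (a : ι → κ → ℝ) (S : Finset ι) (c : ι → ℝ) :
    (1 / 2) * ∑ i ∈ S, c i ^ 2 ≤ ∑ j, (∑ i ∈ S, c i * aug a i j) ^ 2 := by
  rw [Fintype.sum_sum_type]
  have h1 : 0 ≤ ∑ j, (∑ i ∈ S, c i * aug a i (Sum.inl j)) ^ 2 :=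
    Finset.sum_nonneg fun j _ => sq_nonneg _
  have h2 : ∑ i', (∑ i ∈ S, c i * aug a i (Sum.inr i')) ^ 2 = (1 / 2) * ∑ i ∈ S, c i ^ 2 := by
    have h3 : ∀ i', (∑ i ∈ S, c i * aug a i (Sum.inr i')) ^ 2
        = if i' ∈ S then (1 / 2) * c i' ^ 2 else 0 := by
      intro i'
      have h4 : ∀ i, c i * aug a i (Sum.inr i') = if i' = i then c i / Real.sqrt 2 else 0 := by
        intro i
        simp only [aug]
        by_cases h : i = i'
        · rw [if_pos h, if_pos h.symm]; ring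
        · rw [if_neg h, if_neg (Ne.symm h)]; ring
      simp only [h4]
      rw [Finset.sum_ite_eq]
      by_cases h : i' ∈ S
      · rw [if_pos h, if_pos h, div_pow, sq_sqrt2]; ring
      · rw [if_neg h, if_neg h]; norm_num
    simp only [h3]
    rw [Finset.sum_ite_mem, Finset.univ_inter, Finset.mul_sum]
  rw [h2]
  linarith

theorem aug_op (a : ι → κ → ℝ) (b : ℝ)
    (hop : ∀ ψ : κ → ℝ, ∑ i, (∑ j, ψ j * a i j) ^ 2 ≤ b * ∑ j, ψ j ^ 2) (hb : 1 ≤ b)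
    (ψ : κ ⊕ ι → ℝ) :
    ∑ i, (∑ j, ψ j * aug a i j) ^ 2 ≤ b * ∑ j, ψ j ^ 2 := by
  have h1 : ∀ i, ∑ j, ψ j * aug a i j
      = (∑ j, ψ (Sum.inl j) * a i j + ψ (Sum.inr i)) / Real.sqrt 2 := by
    intro i
    rw [Fintype.sum_sum_type]
    have h2 : ∑ j, ψ (Sum.inl j) * aug a i (Sum.inl j)
        = (∑ j, ψ (Sum.inl j) * a i j) / Real.sqrt 2 := by
      rw [Finset.sum_div]
      exact Finset.sum_congr rfl fun j _ => by simp only [aug]; ring
    have h3 : ∑ i', ψ (Sum.inr i') * aug a i (Sum.inr i') = ψ (Sum.inr i) / Real.sqrt 2 := by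
      rw [Finset.sum_eq_single i]
      · simp only [aug, if_true]; ring
      · intro i' _ h
        simp only [aug]
        rw [if_neg (Ne.symm h)]; ring
      · intro h; exact absurd (Finset.mem_univ _) h
    rw [h2, h3]; ring
  have h4 : ∀ i, (∑ j, ψ j * aug a i j) ^ 2
      ≤ (∑ j, ψ (Sum.inl j) * a i j) ^ 2 + ψ (Sum.inr i) ^ 2 := by
    intro i
    rw [h1 i, div_pow, sq_sqrt2]
    nlinarith [sq_nonneg ((∑ j, ψ (Sum.inl j) * a i j) - ψ (Sum.inr i))]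
  calc ∑ i, (∑ j, ψ j * aug a i j) ^ 2
      ≤ ∑ i, ((∑ j, ψ (Sum.inl j) * a i j) ^ 2 + ψ (Sum.inr i) ^ 2) :=
        Finset.sum_le_sum fun i _ => h4 i
    _ = ∑ i, (∑ j, ψ (Sum.inl j) * a i j) ^ 2 + ∑ i, ψ (Sum.inr i) ^ 2 := by
        rw [Finset.sum_add_distrib]
    _ ≤ b * ∑ j, ψ (Sum.inl j) ^ 2 + b * ∑ i, ψ (Sum.inr i) ^ 2 := by
        apply add_le_add (hop fun j => ψ (Sum.inl j))
        have : 0 ≤ ∑ i, ψ (Sum.inr i) ^ 2 := Finset.sum_nonneg fun i _ => sq_nonneg _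
        nlinarith
    _ = _ := by rw [Fintype.sum_sum_type]; ring

end KT11
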